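import Pool.Agent.H141R2.LinesGap
set_option autoImplicit false

/-! A lower bound for the minimum number of vectors determined by a planar set in general
position. -/

namespace Pool.Agent.Results.MP_577aaf_co.NearTight

/-- `v n`: the minimum of `|D(S)|`, `D(S) = {q - p : p, q ∈ S}` (the zero vector included), over
all `n`-point sets `S` in the plane with no three points on a line. -/
noncomputable def v (n : ℕ) : ℕ :=
  sInf {m : ℕ | ∃ S : Finset (EuclideanSpace ℝ (Fin 2)), S.card = n ∧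
    (∀ a ∈ S, ∀ b ∈ S, ∀ c ∈ S, a ≠ b → a ≠ c → b ≠ c → ¬ Collinear ℝ {a, b, c}) ∧
    ((S ×ˢ S).image (fun x => x.1 - x.2)).card = m}

/-- `v(n) ≥ n exp(c √(log n / log log n))` for all large `n`. -/
theorem result : ∃ c : ℝ, 0 < c ∧ ∃ n₀ : ℕ, ∀ n : ℕ, n₀ ≤ n →
    (∃ S : Finset (EuclideanSpace ℝ (Fin 2)), S.card = n ∧
      ∀ a ∈ S, ∀ b ∈ S, ∀ c ∈ S, a ≠ b → a ≠ c → b ≠ c → ¬ Collinear ℝ {a, b, c}) ∧
    (n : ℝ) * Real.exp (c * Real.sqrt (Real.log n / Real.log (Real.log n))) ≤ (v n : ℝ) := by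
  have hlim : Filter.Tendsto (fun n : ℕ => Real.sqrt (Real.log n / Real.log (Real.log n)))
      Filter.atTop Filter.atTop := by
    have h1 : Filter.Tendsto (fun x : ℝ => x / Real.log x) Filter.atTop Filter.atTop := by
      have h2 : Filter.Tendsto (fun x : ℝ => Real.log x / x) Filter.atTop
          (nhdsWithin 0 (Set.Ioi 0)) := by
        apply tendsto_nhdsWithin_iff.2
        refine ⟨?_, ?_⟩
        · have := Real.isLittleO_log_id_atTop
          exact this.tendsto_div_nhds_zero
        · filter_upwards [Filter.eventually_gt_atTop (1 : ℝ)] with x hx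
          exact div_pos (Real.log_pos hx) (by linarith)
      have h3 := h2.inv_tendsto_nhdsGT_zero
      refine h3.congr' ?_
      filter_upwards with x
      simp
    have h4 : Filter.Tendsto (fun n : ℕ => Real.log (n : ℝ)) Filter.atTop Filter.atTop :=
      Real.tendsto_log_atTop.comp tendsto_natCast_atTop_atTop
    exact Real.tendsto_sqrt_atTop.comp (h1.comp h4)
  have hlim2 : Filter.Tendsto (fun n : ℕ => Real.log (n : ℝ)) Filter.atTop Filter.atTop :=
    Real.tendsto_log_atTop.comp tendsto_natCast_atTop_atTop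
  obtain ⟨n₀, hn₀⟩ := Filter.eventually_atTop.1
    ((hlim.eventually_ge_atTop 21000).and (hlim2.eventually_ge_atTop 16))
  refine ⟨1 / 10000, by norm_num, n₀, ?_⟩
  intro n hn
  obtain ⟨h1, h2⟩ := hn₀ n hn
  have hex : ∃ S : Finset (EuclideanSpace ℝ (Fin 2)), S.card = n ∧
      ∀ a ∈ S, ∀ b ∈ S, ∀ c ∈ S, a ≠ b → a ≠ c → b ≠ c → ¬ Collinear ℝ {a, b, c} := by
    classical
    let f : ℕ → EuclideanSpace ℝ (Fin 2) := fun i => !₂[(i : ℝ), (i : ℝ) ^ 2]
    have hf0 : ∀ i, (f i) 0 = (i : ℝ) := fun i => by simp [f]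
    have hf1 : ∀ i, (f i) 1 = (i : ℝ) ^ 2 := fun i => by simp [f]
    have hinj : Function.Injective f := by
      intro i j hij
      have := congrArg (fun z => z 0) hij
      simp only [hf0] at this
      exact_mod_cast this
    refine ⟨(Finset.range n).image f, ?_, ?_⟩
    · rw [Finset.card_image_of_injective _ hinj, Finset.card_range]
    · intro a ha b hb c hc hab hac hbc hcol
      obtain ⟨i, _, rfl⟩ := Finset.mem_image.1 ha
      obtain ⟨j, _, rfl⟩ := Finset.mem_image.1 hb
      obtain ⟨k, _, rfl⟩ := Finset.mem_image.1 hc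
      have hij : (i : ℝ) ≠ j := fun h => hab (by rw [Nat.cast_injective h])
      have hik : (i : ℝ) ≠ k := fun h => hac (by rw [Nat.cast_injective h])
      have hjk : (j : ℝ) ≠ k := fun h => hbc (by rw [Nat.cast_injective h])
      rw [collinear_iff_of_mem (p₀ := f i) (by simp)] at hcol
      obtain ⟨w, hw⟩ := hcol
      obtain ⟨r, hr⟩ := hw (f j) (by simp)
      obtain ⟨s, hs⟩ := hw (f k) (by simp)
      have e1 := congrArg (fun z => z 0) hr
      have e2 := congrArg (fun z => z 1) hr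
      have e3 := congrArg (fun z => z 0) hs
      have e4 := congrArg (fun z => z 1) hs
      simp only [hf0, hf1, vadd_eq_add, PiLp.add_apply, PiLp.smul_apply, smul_eq_mul] at e1 e2 e3 e4
      have q1 : ((j : ℝ) - i) * ((k : ℝ) ^ 2 - i ^ 2) = ((k : ℝ) - i) * ((j : ℝ) ^ 2 - i ^ 2) := by
        have a1 : (j : ℝ) - i = r * w 0 := by rw [e1]; ring
        have a2 : (j : ℝ) ^ 2 - i ^ 2 = r * w 1 := by rw [e2]; ring
        have a3 : (k : ℝ) - i = s * w 0 := by rw [e3]; ring
        have a4 : (k : ℝ) ^ 2 - i ^ 2 = s * w 1 := by rw [e4]; ring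
        rw [a1, a2, a3, a4]; ring
      have q2 : ((j : ℝ) - i) * ((k : ℝ) - i) * (k - j) = 0 := by nlinarith [q1]
      rcases mul_eq_zero.1 q2 with q | q
      · rcases mul_eq_zero.1 q with q | q
        · exact hij (by linarith)
        · exact hik (by linarith)
      · exact hjk (by linarith)
  refine ⟨hex, ?_⟩
  have hne : {m : ℕ | ∃ S : Finset (EuclideanSpace ℝ (Fin 2)), S.card = n ∧
    (∀ a ∈ S, ∀ b ∈ S, ∀ c ∈ S, a ≠ b → a ≠ c → b ≠ c → ¬ Collinear ℝ {a, b, c}) ∧
    ((S ×ˢ S).image (fun x => x.1 - x.2)).card = m}.Nonempty := by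
    obtain ⟨S, hS, hS'⟩ := hex
    exact ⟨_, S, hS, hS', rfl⟩
  obtain ⟨P, hP, hgen, hv⟩ := Nat.sInf_mem hne
  have h3 := H141.Lines.diffs_ge (P := P) hgen (by rw [hP]; exact h2) (by rw [hP]; exact h1)
  rw [hP] at h3
  refine h3.trans ?_
  unfold v
  rw [← hv]
  have : (P.offDiag.image (fun x => x.1 - x.2)).card
      ≤ ((P ×ˢ P).image (fun x => x.1 - x.2)).card := by
    apply Finset.card_le_card
    apply Finset.image_subset_image
    intro x hx
    rw [Finset.mem_offDiag] at hx
    exact Finset.mem_product.2 ⟨hx.1, hx.2.1⟩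
  exact_mod_cast this

end Pool.Agent.Results.MP_577aaf_co.NearTight
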